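import Pool.Agent.J6H76.MS.WinJ
import Pool.Agent.Y120.J.JDef

/-!
# The modular Schanuel conjecture with derivatives for ALL BUT TWO algebraic invariants of a short window, relations of growing
# degree with arbitrary additional constants

Let `j` be the modular invariant. For points `z_1, …, z_k` of the upper half-plane with algebraic `j(z_l)` which are neither
special nor related by `GL_2(ℚ)` the conjecture predicts that the `3 k` numbers `z_l`, `j'(z_l)`, `j''(z_l)` are algebraically
independent.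

Let `ξ` be an algebraic number of degree at most `m` and of height at most a power of `|ξ|` and let `w_1, …, w_q` be ANY complex
numbers. We prove: if `|ξ| ≥ (H + 2)^((δ + 2)^C)`, then there is a set `S` of at most `q + 2` exceptional integers such that for all
distinct `n_1, …, n_k` in `{1, …, H}` outside of `S` and ALL points `z_l` of the upper half-plane with `j(z_l) = ξ + n_l` the `3 k`
numbers `z_l`, `j'(z_l)`, `j''(z_l)` satisfy no nontrivial polynomial relation of degree at most `δ` in each unknown with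
`2 π i`, `w_1, …, w_q`, over any number field of degree at most `δ`, of any height. The constant `C` depends only on `k`, `q`, `m`, `A`:
for `H` fixed and `|ξ| = T` the degrees `δ` may grow with `T` like a power of `log T`. For `q = 0` all but at most two integers of
the window are admitted, and the conclusion is the full algebraic independence up to the degree `δ` (also over `ℚ(2 π i)`).

In the starting library the case of integers `ξ` is `MP_f58a57_nt/GrowingDegreeWindows`, and for algebraic `ξ` the result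
`MP_ede373_nt/AlgebraicWindows` has a fixed degree and only windows of multiples `G u` of a large integer `G`.

Proof. Near the cusp `2 π i z = log x - v_2 / v_0 + 2 π i n`, `j' = - 2 π i η v_0²`, `j'' = (2 π i)² η (v_0⁴ - 2 v_0³ v_1)`, where
`η = ξ + n_l`, `x = 1 / (ξ + H + 1)` and `v_0, v_1, v_2` are values at `x` of G-functions. The `3 k` values satisfy no relation of degree
`Δ` by the method of Siegel. A relation with the constants `2 π i`, `log x`, `w_1, …, w_q` for tuples outside of every set of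
`q + 2` numbers gives, for a maximal system of independent tuples, too many values in a field of small transcendence degree.
The transformation by `SL_2(ℤ)` to the given points `z_l` is a dominant rational map in `v_0, v_1, v_2` over `ℚ(ξ, 2 π i, log x)`.
-/

set_option autoImplicit false

open Module

namespace Pool.Agent.Results.MP_5e64e7_nt.AllButFewPoints

/-- the normalised Eisenstein series of weight `4` -/
noncomputable def E4 (τ : ℂ) : ℂ :=
  1 + 240 * ∑' m : ℕ, ((ArithmeticFunction.sigma 3 (m + 1) : ℕ) : ℂ) *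
    Complex.exp (2 * (Real.pi : ℂ) * Complex.I * ((m : ℂ) + 1) * τ)

/-- the normalised Eisenstein series of weight `6` -/
noncomputable def E6 (τ : ℂ) : ℂ :=
  1 - 504 * ∑' m : ℕ, ((ArithmeticFunction.sigma 5 (m + 1) : ℕ) : ℂ) *
    Complex.exp (2 * (Real.pi : ℂ) * Complex.I * ((m : ℂ) + 1) * τ)

/-- the modular invariant `j = q⁻¹ + 744 + 196884 q + ⋯` -/
noncomputable def J (τ : ℂ) : ℂ := 1728 * E4 τ ^ 3 / (E4 τ ^ 3 - E6 τ ^ 2)

/-- the numbers `z`, `j'(z)`, `j''(z)` -/
noncomputable def numbers (z : ℂ) : Fin 3 → ℂ := ![z, deriv J z, deriv (deriv J) z]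

/-- the number `2 π i` added to the numbers `w_1, …, w_q` -/
noncomputable def withPeriod {q : ℕ} (w : Fin q → ℂ) (o : Option (Fin q)) : ℂ := o.elim (2 * (Real.pi : ℂ) * Complex.I) w

/-- `ξ` is a root of a nonzero integral polynomial of degree at most `m` with coefficients at most `|ξ| ^ A`. -/
def Height (m A : ℕ) (ξ : ℂ) : Prop :=
  ∃ P : Polynomial ℤ, P ≠ 0 ∧ P.natDegree ≤ m ∧ (∀ j, |(P.coeff j : ℝ)| ≤ ‖ξ‖ ^ A) ∧ Polynomial.aeval ξ P = 0

lemma totalDegree_le {I R : Type} [Fintype I] [CommRing R] {P : MvPolynomial I R} {δ : ℕ} (h : ∀ i, P.degreeOf i ≤ δ) :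
    P.totalDegree ≤ Fintype.card I * δ := by
  classical
  rw [MvPolynomial.totalDegree]
  refine Finset.sup_le fun m hm => ?_
  rw [Finsupp.sum_fintype _ _ (fun _ => rfl)]
  calc ∑ i, m i ≤ ∑ _i : I, δ := Finset.sum_le_sum fun i _ => (MvPolynomial.monomial_le_degreeOf i hm).trans (h i)
    _ = _ := by rw [Finset.sum_const, Finset.card_univ, smul_eq_mul]

/-- **Theorem.** For all `q`, `k`, `m`, `A` there is `C` such that for all `δ`, `H`, all complex `ξ` with
`|ξ| ≥ (H + 2)^((δ + 2)^C)` and of height `(m, A)` and all complex numbers `w_1, …, w_q` there is a set `S` of at most `q + 2` integers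
such that for all distinct `n_1, …, n_k` in `[1, H]` outside of `S` and all `z_1, …, z_k` in the upper half-plane with
`j(z_l) = ξ + n_l`: every polynomial `P` of degree at most `δ` in each unknown over a number field of degree at most `δ` which
vanishes at `2 π i, w_1, …, w_q` and the `3 k` numbers `z_l`, `j'(z_l)`, `j''(z_l)` vanishes at `2 π i, w_1, …, w_q` and all `u ∈ ℂ^(3 k)`. -/
theorem result (q k m A : ℕ) : ∃ C : ℕ, ∀ (δ H : ℕ) (ξ : ℂ), ((H : ℝ) + 2) ^ (δ + 2) ^ C ≤ ‖ξ‖ → Height m A ξ →
    ∀ w : Fin q → ℂ, ∃ S : Finset ℕ, S.card ≤ q + 2 ∧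
    ∀ n : Fin k → ℕ, Function.Injective n → (∀ l, 1 ≤ n l ∧ n l ≤ H ∧ n l ∉ S) →
    ∀ z : Fin k → ℂ, (∀ l, 0 < (z l).im ∧ J (z l) = ξ + n l) →
    ∀ K : IntermediateField ℚ ℂ, FiniteDimensional ℚ K → finrank ℚ K ≤ δ →
    ∀ P : MvPolynomial (Option (Fin q) ⊕ Fin k × Fin 3) K, (∀ i, P.degreeOf i ≤ δ) →
    MvPolynomial.aeval (Sum.elim (withPeriod w) fun v : Fin k × Fin 3 => numbers (z v.1) v.2) P = 0 →
    ∀ u : Fin k × Fin 3 → ℂ, MvPolynomial.aeval (Sum.elim (withPeriod w) u) P = 0 := by
  classical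
  have h4 : E4 = Pool.Agent.TH21.MS.E4 := funext Pool.Agent.Y120.J.E4_same
  have h6 : E6 = Pool.Agent.TH21.MS.E6 := funext Pool.Agent.Y120.J.E6_same
  have hJ : J = Pool.Agent.TH21.MS.jj := by
    funext τ
    unfold J Pool.Agent.TH21.MS.jj
    rw [h4, h6]
  obtain ⟨E, hE, h1⟩ := Pool.Agent.J6H76.MS.winJ q k m A
  set N := Fintype.card (Option (Fin q) ⊕ Fin k × Fin 3) with hN
  have hE' : Pool.Agent.R351.GD.PB fun δ => E (N * δ + δ) :=
    hE.comp (((Pool.Agent.R351.GD.PB.const N).mul Pool.Agent.R351.GD.PB.id).add Pool.Agent.R351.GD.PB.id)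
  obtain ⟨C, hC⟩ := hE'
  refine ⟨C, fun δ H ξ hξ hHt w => ?_⟩
  have hH : (1 : ℝ) ≤ (H : ℝ) + 2 := by linarith [(Nat.cast_nonneg H : (0 : ℝ) ≤ H)]
  obtain ⟨S, hS, h⟩ := h1 (N * δ + δ) H ξ ((pow_le_pow_right₀ hH (hC δ)).trans hξ) hHt w
  refine ⟨S, hS, fun n hn hnb z hz K hK hKd P hP h0 u => ?_⟩
  have hzz : ∀ l, Pool.Agent.TH21.MS.jj ((⟨z l, (hz l).1⟩ : UpperHalfPlane) : ℂ) = ξ + n l := by
    intro l
    have h5 := (hz l).2
    rw [hJ] at h5
    exact h5
  have hjt : ∀ l j, Pool.Agent.Y120.J.jt (z l) j = numbers (z l) j := by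
    intro l j
    unfold numbers Pool.Agent.Y120.J.jt
    rw [hJ]
  refine h n hn hnb (fun l => ⟨z l, (hz l).1⟩) hzz K hK (hKd.trans (Nat.le_add_left _ _)) P
    ((totalDegree_le hP).trans (Nat.le_add_right _ _)) ?_ u
  rw [← h0]
  congr 2
  funext x
  rcases x with o | v
  · rfl
  · exact hjt v.1 v.2

end Pool.Agent.Results.MP_5e64e7_nt.AllButFewPoints
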