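import Mathlib
import Pool.Agent.Y776.AxJ.Fun
import Pool.Agent.J6H45.RT.Core
import Pool.Agent.J6H45.RT.JId

/-!
# The modular Schanuel conjecture with derivatives at all roots of almost all integral polynomials, for arbitrary
# analytic curves

Let `τ_1, …, τ_p` (`p ≥ 1`) be nonconstant analytic functions on a connected open set `U` with values in the upper
half-plane, such that `j(τ_i)` and `j(τ_k)` are algebraically independent over `ℂ` for `i ≠ k`, and let `w_1, …, w_s`
(`s ≥ 0`) be analytic functions on `U` no nontrivial combination of which with integral coefficients is constant. There is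
no other condition on these functions; nothing needs to be algebraic. We consider the functions

  `τ_i`, `j(τ_i)`, `j'(τ_i)`, `j''(τ_i)`, `w_k`, `exp(w_k)`

at ALL the roots `z_1, …, z_g` of an integral polynomial of degree `g` (so, for an irreducible polynomial, at all the
conjugates of an algebraic number of degree `g`); only the roots outside `U` are omitted. We obtain `p g` points
`τ_i(z_m)` of the upper half-plane, which in general are not special and pairwise not equivalent, and the modular
Schanuel conjecture with derivatives predicts for `s = 0` that the transcendence degree of the field generated by the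
`4 p g` numbers `τ_i(z_m)`, `j(τ_i(z_m))`, `j'(τ_i(z_m))`, `j''(τ_i(z_m))` is at least `3 p g`; together with Schanuel's
conjecture it is `(3 p + s) g` for `s > 0`.

We prove: there are `3 p + s` functions among the `4 p + 2 s` ones such that for every degree `g` and for almost all
integral polynomials of degree `g` with coefficients at most `T` the values of these functions at all the roots together
satisfy no algebraic relation over number fields whose degree and whose field degree is at most `ω(T)` and whose height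
is at most `T ^ ω(T)`, where `ω(T) → ∞`; the coefficients of the relations may contain arbitrary given complex numbers
`ξ_0, ξ_1, …`, for instance the powers of `π`. For the polynomials whose roots are in a fixed compact position (at most
`R` in absolute value, at distance at least `η` from each other and from the complement of `U`) there are at most
`C T ^ (g + ε)` exceptions, for every `ε > 0` (of about `T ^ (g + 1)`), for relations of bounded degree.

For `p = 1`, `s = 0`, `τ(z) = z` the set `U` is the upper half-plane, and we have: for almost all integral polynomials of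
degree `g` the numbers `j(z)`, `j'(z)`, `j''(z)` at ALL their roots `z` in the upper half-plane together satisfy no such
relation.

The proof is an application of `Pool.Agent.X255.RH.main_all` (values of algebraically independent functions at the roots
of almost all polynomials) and of `Pool.Agent.Y776.AxJ.exists_loc` (an Ax-Schanuel theorem for the functions above).
-/

set_option autoImplicit false

open Polynomial Filter Topology NumberField
open Pool.Agent

namespace Pool.Agent.Results.MP_5e64e7_nt.AllRootsOfPolynomials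

/-- The lattice `ℤ + ℤ τ`. -/
noncomputable def lattice (τ : ℂ) (h : 0 < τ.im) : PeriodPair where
  ω₁ := 1
  ω₂ := τ
  indep := (Y685.LL ⟨τ, h⟩).indep

/-- The modular invariant `j = 1728 g₂³ / (g₂³ - 27 g₃²)` on the upper half-plane. -/
noncomputable def j (τ : ℂ) : ℂ :=
  if h : 0 < τ.im then 1728 * (lattice τ h).g₂ ^ 3 / ((lattice τ h).g₂ ^ 3 - 27 * (lattice τ h).g₃ ^ 2) else 0

/-- The names of the functions. -/
inductive Name (p s : ℕ) : Type
  | tau : Fin p → Name p s
  | j : Fin p → Name p s
  | dj : Fin p → Name p s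
  | ddj : Fin p → Name p s
  | w : Fin s → Name p s
  | expw : Fin s → Name p s

/-- The values `τ_i(z)`, `j(τ_i(z))`, `j'(τ_i(z))`, `j''(τ_i(z))` (complex derivatives of `j`), `w_k(z)` and
`exp(w_k(z))`. -/
noncomputable def value {p s : ℕ} (τ : Fin p → ℂ → ℂ) (w : Fin s → ℂ → ℂ) (z : ℂ) : Name p s → ℂ
  | Name.tau i => τ i z
  | Name.j i => j (τ i z)
  | Name.dj i => deriv j (τ i z)
  | Name.ddj i => deriv (deriv j) (τ i z)
  | Name.w k => w k z
  | Name.expw k => Complex.exp (w k z)

/-- An analytic curve in `ℍ^p × ℂ^s`. -/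
structure Curve (U : Set ℂ) {p s : ℕ} (τ : Fin p → ℂ → ℂ) (w : Fin s → ℂ → ℂ) : Prop where
  pos : 0 < p
  isOpen : IsOpen U
  isPreconnected : IsPreconnected U
  nonempty : U.Nonempty
  analytic : ∀ i, AnalyticOnNhd ℂ (τ i) U
  im_pos : ∀ i, ∀ z ∈ U, 0 < (τ i z).im
  nonconstant : ∀ i c, ∃ z ∈ U, τ i z ≠ c
  /-- two of the functions `j(τ_i)` are algebraically independent over `ℂ` -/
  independent : ∀ i k, i ≠ k → ∀ P : MvPolynomial (Fin 2) ℂ, P ≠ 0 →
    ∃ z ∈ U, MvPolynomial.eval ![j (τ i z), j (τ k z)] P ≠ 0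
  analytic_w : ∀ k, AnalyticOnNhd ℂ (w k) U
  /-- no nontrivial combination with integral coefficients of the `w_k` is constant -/
  linear : ∀ (m : Fin s → ℤ) (c : ℂ), (∀ z ∈ U, ∑ k, (m k : ℂ) * w k z = c) → m = 0

/-- The integral vectors `a = (a_0, …, a_g)` with `|a_i| ≤ T`. -/
noncomputable def box (g T : ℕ) : Finset (Fin (g + 1) → ℤ) := Fintype.piFinset fun _ => Finset.Icc (-(T : ℤ)) (T : ℤ)

/-- The polynomial `a_0 + a_1 x + … + a_g x^g`. -/
noncomputable def poly {g : ℕ} (a : Fin (g + 1) → ℤ) : ℂ[X] := ∑ i, C (a i : ℂ) * X ^ (i : ℕ)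

/-- The roots in `K` of the polynomial with the coefficients `a`. -/
noncomputable def roots {g : ℕ} (K : Set ℂ) (a : Fin (g + 1) → ℤ) : Finset ℂ := by
  classical exact (poly a).roots.toFinset.filter fun z => z ∈ K

/-- The distance of the points `z` of `K` from the complement of `U` is bounded below by a positive constant, or by the
distance of `z` from a closed discrete set, or (for `z` not real) by `|Im z|`. This is true if `K` is a compact subset of
`U`, and if `K = U` is the upper half-plane, the whole plane, or the complement of a discrete set. -/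
def Tame (K U : Set ℂ) : Prop :=
  ∃ (S : Set ℂ) (c : ℝ), 0 < c ∧ (∀ R : ℝ, (S ∩ Metric.closedBall 0 R).Finite) ∧
    ∀ z ∈ K, ∀ w, w ∉ U → (∃ p ∈ S, ‖z - p‖ ≤ ‖z - w‖) ∨ (z.im ≠ 0 ∧ |z.im| ≤ ‖z - w‖) ∨ c ≤ ‖z - w‖

/-- The numbers `x q` satisfy no relation of degree at most `k` in each of them with coefficients `∑_{b < k} ξ_b c_b`, where the `c_b` are
integers of a number field of degree at most `k` all of whose conjugates are at most `T ^ k`, except the relations all of whose coefficients
vanish. -/
def NoRelation {Q : Type} [Fintype Q] [DecidableEq Q] (ξ : ℕ → ℂ) (k : ℕ) (T : ℝ) (x : Q → ℂ) : Prop :=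
  ∀ (F : Type) [Field F] [NumberField F], Module.finrank ℚ F ≤ k → ∀ (io : F →+* ℂ)
    (c : (Q → Fin (k + 1)) → Fin k → 𝓞 F), (∀ l b (φ : F →+* ℂ), ‖φ (c l b : F)‖ ≤ T ^ k) →
    ∑ l, (∑ b : Fin k, ξ b * io (c l b : F)) * ∏ q, x q ^ (l q : ℕ) = 0 → ∀ l, ∑ b : Fin k, ξ b * io (c l b : F) = 0

/-- There is no relation between the values of the functions `f_i` at all the roots in `K` of the polynomial with the
coefficients `a` together. -/
def Unrelated {g N : ℕ} (K : Set ℂ) (f : Fin N → ℂ → ℂ) (ξ : ℕ → ℂ) (k : ℕ) (T : ℝ) (a : Fin (g + 1) → ℤ) : Prop :=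
  NoRelation ξ k T fun q : {x // x ∈ roots K a} × Fin N => f q.2 q.1

/-- The polynomial with the coefficients `a` has degree `g` and simple roots, and there is no relation between the
values of the functions `f_i` at all its roots in `K` together. -/
def Good {g N : ℕ} (K : Set ℂ) (f : Fin N → ℂ → ℂ) (ξ : ℕ → ℂ) (k : ℕ) (T : ℝ) (a : Fin (g + 1) → ℤ) : Prop :=
  a (Fin.last g) ≠ 0 ∧ (poly a).Separable ∧ Unrelated K f ξ k T a

/-- The polynomial with the coefficients `a` has degree `g`, its roots are simple, of absolute value at most `R`, at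
distance at least `η` from each other, and the roots in `K` are at distance at least `η` from the complement of `U`. -/
def Position {g : ℕ} (K U : Set ℂ) (R η : ℝ) (a : Fin (g + 1) → ℤ) : Prop :=
  a (Fin.last g) ≠ 0 ∧ (poly a).Separable ∧ ∀ z, (poly a).eval z = 0 → ‖z‖ ≤ R ∧
    (∀ w, (poly a).eval w = 0 → w ≠ z → η ≤ ‖z - w‖) ∧ (z ∈ K → Metric.ball z η ⊆ U)

theorem j_eq {τ : ℂ} (h : 0 < τ.im) : j τ = Y776.jf τ := by
  have h1 : Y685.LC τ = lattice τ h := by
    rw [Y685.LC, UpperHalfPlane.ofComplex_apply_of_im_pos h]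
    rfl
  rw [j, dif_pos h, Y776.jf, h1]

theorem j_ev {τ : ℂ} (h : 0 < τ.im) : j =ᶠ[nhds τ] Y776.jf := by
  filter_upwards [Y776.AxJ.isOpen_H.mem_nhds h] with σ hσ
  exact j_eq hσ

theorem dj_eq {τ : ℂ} (h : 0 < τ.im) : deriv j τ = deriv Y776.jf τ := (j_ev h).deriv_eq

theorem dj_ev {τ : ℂ} (h : 0 < τ.im) : deriv j =ᶠ[nhds τ] deriv Y776.jf := by
  filter_upwards [Y776.AxJ.isOpen_H.mem_nhds h] with σ hσ
  exact dj_eq hσ

theorem ddj_eq {τ : ℂ} (h : 0 < τ.im) : deriv (deriv j) τ = deriv (deriv Y776.jf) τ := (dj_ev h).deriv_eq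

theorem fmj {U : Set ℂ} {p s : ℕ} {τ : Fin p → ℂ → ℂ} {w : Fin s → ℂ → ℂ} (h : Curve U τ w) :
    Y776.AxJ.Fmj U τ w where
  op := h.isOpen
  conn := h.isPreconnected
  ne := h.nonempty
  ta := h.analytic
  im := h.im_pos
  nc := h.nonconstant
  ji := by
    intro i k hik P hP
    by_contra hne
    obtain ⟨z, hz, hz0⟩ := h.independent i k hik P hne
    apply hz0
    rw [← hP z hz]
    congr 2
    funext m
    fin_cases m
    · exact j_eq (h.im_pos i z hz)
    · exact j_eq (h.im_pos k z hz)
  wa := h.analytic_w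
  wi := h.linear

/-- the name of a function -/
def nm {p s : ℕ} : Y776.AxJ.Nj p s → Name p s := fun o => match o with
  | Sum.inl (i, 0) => Name.tau i
  | Sum.inl (i, 1) => Name.j i
  | Sum.inl (i, 2) => Name.dj i
  | Sum.inl (i, 3) => Name.ddj i
  | Sum.inr (Sum.inl k) => Name.w k
  | Sum.inr (Sum.inr k) => Name.expw k

/-- the function with a given name -/
def mn {p s : ℕ} : Name p s → Y776.AxJ.Nj p s := fun o => match o with
  | Name.tau i => Sum.inl (i, 0)
  | Name.j i => Sum.inl (i, 1)
  | Name.dj i => Sum.inl (i, 2)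
  | Name.ddj i => Sum.inl (i, 3)
  | Name.w k => Sum.inr (Sum.inl k)
  | Name.expw k => Sum.inr (Sum.inr k)

theorem nm_inj {p s : ℕ} : Function.Injective (nm (p := p) (s := s)) := by
  have h : Function.LeftInverse (mn (p := p) (s := s)) nm := by
    rintro (⟨i, m⟩ | k | k)
    · fin_cases m <;> rfl
    · rfl
    · rfl
  exact h.injective

theorem value_eq {U : Set ℂ} {p s : ℕ} {τ : Fin p → ℂ → ℂ} {w : Fin s → ℂ → ℂ} (h : Curve U τ w) {z : ℂ}
    (hz : z ∈ U) (o : Y776.AxJ.Nj p s) : value τ w z (nm o) = Y776.AxJ.yj τ w o z := by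
  rcases o with ⟨i, m⟩ | k | k
  · fin_cases m
    · rfl
    · exact j_eq (h.im_pos i z hz)
    · exact dj_eq (h.im_pos i z hz)
    · exact ddj_eq (h.im_pos i z hz)
  · rfl
  · rfl

theorem value_an {U : Set ℂ} {p s : ℕ} {τ : Fin p → ℂ → ℂ} {w : Fin s → ℂ → ℂ} (h : Curve U τ w)
    (o : Y776.AxJ.Nj p s) : AnalyticOnNhd ℂ (fun z => value τ w z (nm o)) U := by
  intro z hz
  refine (Y776.AxJ.yj_an (fmj h) o z hz).congr ?_
  filter_upwards [h.isOpen.mem_nhds hz] with x hx
  exact (value_eq h hx o).symm

/-- independent functions -/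
theorem exists_indep {U : Set ℂ} {p s : ℕ} {τ : Fin p → ℂ → ℂ} {w : Fin s → ℂ → ℂ} (h : Curve U τ w) :
    ∃ e : Fin (3 * p + s) → Name p s, Function.Injective e ∧
      (∀ k, AnalyticOnNhd ℂ (fun z => value τ w z (e k)) U) ∧
      X255.RH.Indep U (fun (k : Fin (3 * p + s)) z => value τ w z (e k)) := by
  obtain ⟨e, he, hL⟩ := Y776.AxJ.exists_loc (fmj h) h.pos
  refine ⟨fun k => nm (e k), nm_inj.comp he, fun k => value_an h (e k), ?_⟩
  obtain ⟨t, ht⟩ := h.nonempty
  refine J6H45.RT.indep_of_loc h.isOpen ht ?_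
  intro P hP
  refine hL t ht P ?_
  filter_upwards [hP, h.isOpen.mem_nhds ht] with z hz hzU
  rw [← hz]
  congr 2
  funext o
  rcases o with _ | k
  · rfl
  · exact (value_eq h hzU (e k)).symm

/-- the functions `j`, `j'`, `j''` -/
noncomputable def jets (k : Fin 3) (z : ℂ) : ℂ := ![j z, deriv j z, deriv (deriv j) z] k

theorem jets_eq {z : ℂ} (hz : 0 < z.im) (k : Fin 3) : jets k z = Y776.AxJ.b4 k.succ z := by
  fin_cases k
  · exact j_eq hz
  · exact dj_eq hz
  · exact ddj_eq hz

theorem jets_an (k : Fin 3) : AnalyticOnNhd ℂ (jets k) {z : ℂ | 0 < z.im} := by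
  intro z hz
  refine (Y776.AxJ.yj_an J6H45.RT.fmj_id (Sum.inl (0, k.succ)) z hz).congr ?_
  filter_upwards [Y776.AxJ.isOpen_H.mem_nhds hz] with x hx
  exact (jets_eq hx k).symm

theorem jets_indep : X255.RH.Indep {z : ℂ | 0 < z.im} jets := by
  have hI : Complex.I ∈ {z : ℂ | 0 < z.im} := by simp
  refine J6H45.RT.indep_of_loc Y776.AxJ.isOpen_H hI ?_
  intro P hP
  refine J6H45.RT.loc_j3 (t := Complex.I) (by simp) P ?_
  filter_upwards [hP, Y776.AxJ.isOpen_H.mem_nhds hI] with z hz hzU
  rw [← hz]
  congr 2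
  funext o
  rcases o with _ | k
  · rfl
  · exact (jets_eq hzU k).symm

open scoped Classical in
/-- **All roots of almost all polynomials.** There are `3 p + s` different functions `e_k` among the `4 p + 2 s` functions
such that for every degree `g ≥ 1`, all complex numbers `ξ_0, ξ_1, …` and all tame subsets `K_0, K_1, …` of `U`:
(1) there is a function `ω(T) → ∞` such that among the `(2 T + 1)^(g + 1)` integral polynomials with coefficients at most
`T` at most the proportion `1 / ω(T)` is not good (for the set `K_(ω(T))`, relations of degree `ω(T)` and height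
`T ^ ω(T)`);
(2) for all `K`, `k`, `R`, `η > 0`, `ε > 0` the number of the polynomials in the position `(K, R, η)` with coefficients
at most `T` whose values are related is at most `C T ^ (g + ε)`.
Moreover the compact subsets of an open set and the upper half-plane are tame.
For the curve `τ(z) = z` on the upper half-plane (`p = 1`, `s = 0`) one can take the functions `j`, `j'`, `j''`: for every `g` and
all `ξ` there is `ω(T) → ∞` such that at most the proportion `1 / ω(T)` of the polynomials is not good for the three functions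
and the whole upper half-plane, and (2) holds for them. -/
theorem result :
    (∀ {p s : ℕ} (U : Set ℂ) (τ : Fin p → ℂ → ℂ) (w : Fin s → ℂ → ℂ), Curve U τ w →
      ∃ e : Fin (3 * p + s) → Name p s, Function.Injective e ∧ ∀ (g : ℕ), 0 < g → ∀ ξ : ℕ → ℂ,
        (∀ K : ℕ → Set ℂ, (∀ k, Tame (K k) U) →
          ∃ ω : ℕ → ℕ, Tendsto ω atTop atTop ∧ Monotone ω ∧ ∀ T : ℕ,
            ω T * ((box g T).filter fun a =>
              ¬ Good (K (ω T)) (fun k z => value τ w z (e k)) ξ (ω T) T a).card ≤ (box g T).card) ∧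
        ∀ (K : Set ℂ) (k : ℕ) (R η ε : ℝ), 0 < η → 0 < ε → ∃ C : ℝ, ∀ T : ℕ, 1 ≤ T →
          (((box g T).filter fun a => Position K U R η a ∧
            ¬ Unrelated K (fun k z => value τ w z (e k)) ξ k T a).card : ℝ) ≤ C * (T : ℝ) ^ ((g : ℝ) + ε)) ∧
    (∀ K U : Set ℂ, IsCompact K → IsOpen U → K ⊆ U → Tame K U) ∧
    Tame {z : ℂ | 0 < z.im} {z : ℂ | 0 < z.im} ∧
    ∀ (g : ℕ), 0 < g → ∀ ξ : ℕ → ℂ,
      (∃ ω : ℕ → ℕ, Tendsto ω atTop atTop ∧ Monotone ω ∧ ∀ T : ℕ,
        ω T * ((box g T).filter fun a => ¬ Good {z : ℂ | 0 < z.im} jets ξ (ω T) T a).card ≤ (box g T).card) ∧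
      ∀ (k : ℕ) (R η ε : ℝ), 0 < η → 0 < ε → ∃ C : ℝ, ∀ T : ℕ, 1 ≤ T →
        (((box g T).filter fun a => Position {z : ℂ | 0 < z.im} {z : ℂ | 0 < z.im} R η a ∧
          ¬ Unrelated {z : ℂ | 0 < z.im} jets ξ k T a).card : ℝ) ≤ C * (T : ℝ) ^ ((g : ℝ) + ε) := by
  have hconn : IsPreconnected {z : ℂ | 0 < z.im} := (convex_halfSpace_im_gt 0).isPreconnected
  refine ⟨fun {p s} U τ w h => ?_, fun K U hK hU hKU => J6H45.RT.tame_compact hK hU hKU, J6H45.RT.tame_upper,
    fun g hg ξ => ⟨?_, fun k R η ε hη hε => ?_⟩⟩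
  rotate_left
  · exact X255.RH.main_all (f := jets) hg hconn Y776.AxJ.isOpen_H (fun _ => {z : ℂ | 0 < z.im})
      (fun _ => J6H45.RT.tame_upper) jets_an jets_indep ξ
  · exact X255.RH.main_eps (f := jets) hg hconn Y776.AxJ.isOpen_H jets_an jets_indep _ ξ k R η ε hη hε
  obtain ⟨e, he, han, hind⟩ := exists_indep h
  refine ⟨e, he, fun g hg ξ => ⟨fun K hK => ?_, fun K k R η ε hη hε => ?_⟩⟩
  · exact X255.RH.main_all (f := fun (k : Fin (3 * p + s)) z => value τ w z (e k)) hg h.isPreconnected h.isOpen K hK
      han hind ξ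
  · exact X255.RH.main_eps (f := fun (k : Fin (3 * p + s)) z => value τ w z (e k)) hg h.isPreconnected h.isOpen
      han hind K ξ k R η ε hη hε

end Pool.Agent.Results.MP_5e64e7_nt.AllRootsOfPolynomials
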