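import Pool.Agent.J6H45.RT.Curves
import Pool.Agent.J6H45.RT.NearC

/-!
# The modular Schanuel conjecture with derivatives on countably many arbitrary analytic curves, at ALL algebraic numbers
# close to any number outside a set of dimension zero

We consider countably many arbitrary analytic curves (`Curve` of the starting file `MP_ede373_nt.ArbitraryCurves`): each is
given by nonconstant analytic functions `τ_1, …, τ_p` (`p ≥ 1`) on a connected open set `U` with values in the upper
half-plane, such that `j(τ_i)` and `j(τ_k)` are algebraically independent over `ℂ` for `i ≠ k`, and analytic functions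
`w_1, …, w_s` (`s ≥ 0`) on `U` no nontrivial combination of which with integral coefficients is constant. Nothing needs to
be algebraic. For instance one can take all the curves for which the `τ_i` are algebraic functions over the algebraic
numbers, on all discs with rational centres and radii.

The modular Schanuel conjecture with derivatives predicts (`s = 0`) that at least `3 p` of the numbers
`τ_i`, `j(τ_i)`, `j'(τ_i)`, `j''(τ_i)` at a point `t` are algebraically independent, if the `τ_i(t)` are not special and
pairwise not equivalent, and together with Schanuel's conjecture at least `3 p + s` of the numbers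
`τ_i`, `j(τ_i)`, `j'(τ_i)`, `j''(τ_i)`, `w_k`, `exp(w_k)`. We prove, for `3 p + s` of these functions which depend only on the
curve, and outside ONE set `E` of complex numbers of Hausdorff dimension `0` (for all the curves, number fields, degrees
and scales): for every `x ∉ E` of `U` and ALL algebraic numbers `t` in a number field which are close to `x`
(`|t - x| ≤ T ^ (-ω)`, where `T` bounds the height of `t` and `ω > 0` is arbitrary), the `3 p + s` numbers at `t` satisfy no
relation of bounded degree with coefficients of polynomial size, even approximately; the coefficients may be polynomials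
in arbitrary constants `ξ_1, …, ξ_g` fixed in advance (for instance `π` and values of `j'` at special points). In particular
nonzero integral polynomials `P` of degree at most `d` and of height at most `T ^ A` have values of absolute value greater
than `T ^ (-B)` at these numbers. For real `x ∉ E` this is true for all large convergents of the continued fraction of `x`.

Proof: the `3 p + s` functions are algebraically independent over `ℂ(t)` (`Pool.Agent.Y776.AxJ`); the levels of the library
give, on compact sets, at most `C T ^ ε` exceptional points of height `T`, for every `ε > 0`, and so a limsup set of dimension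
`0` (`Pool.Agent.X39.Near`, helper39).
-/

set_option autoImplicit false

open NumberField

namespace Pool.Agent.Results.MP_5e64e7_nt.ApproximationsOfAllNumbers

open Pool.Agent.X39.Near (Size)
open Pool.Agent.J6H45.RT (NoRelation)
open Pool.Agent.Results.MP_ede373_nt.ArbitraryCurves (Curve Name value)

/-- **Theorem.** Let `ξ_1, …, ξ_g` be complex numbers, and let countably many curves `(U_i, τ_i, w_i)` be given. There are
`3 p_i + s_i` different functions among the `4 p_i + 2 s_i` functions of the `i`-th curve, for each `i`, and a set `E` of
complex numbers of Hausdorff dimension `0`, such that for all `i`: for all `x ∈ U_i` outside `E`, all number fields `F` with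
an embedding `ι` in `ℂ`, all `d`, `A` and `ω > 0` there are `B`, `T₁` such that for all `T ≥ T₁` and all `t ∈ F`, quotients of
integers with conjugates at most `T`, with `|ι t - x| ≤ T ^ (-ω)` there is no relation between the `3 p_i + s_i` numbers at
`ι t`; and for all real irrational `x ∈ U_i` outside `E` and all `d`, `A` there is `B` such that there is no relation at the
large convergents of `x`, `T` their denominator. -/
theorem result {g : ℕ} (ξ : Fin g → ℂ) {I : Type} [Countable I] (p s : I → ℕ) (U : I → Set ℂ)
    (τ : ∀ i, Fin (p i) → ℂ → ℂ) (w : ∀ i, Fin (s i) → ℂ → ℂ) (hU : ∀ i, Curve (U i) (τ i) (w i)) :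
    ∃ (e : ∀ i, Fin (3 * p i + s i) → Name (p i) (s i)) (E : Set ℂ), (∀ i, Function.Injective (e i)) ∧ dimH E = 0 ∧ ∀ i,
      (∀ x ∈ U i, x ∉ E → ∀ (F : Type) [Field F] [NumberField F] (ι : F →+* ℂ) (d A : ℕ) (ω : ℝ), 0 < ω →
        ∃ B T₁ : ℝ, ∀ T : ℝ, T₁ ≤ T → ∀ t : F, Size F T t → ‖ι t - x‖ ≤ T ^ (-ω) →
          NoRelation (fun k => value (τ i) (w i) (ι t) (e i k)) ξ F ι d A B T) ∧
      ∀ x : ℝ, Irrational x → (x : ℂ) ∈ U i → (x : ℂ) ∉ E → ∀ d A : ℕ, ∃ (B : ℝ) (n₀ : ℕ), ∀ l : ℕ, n₀ ≤ l →
        NoRelation (fun k => value (τ i) (w i) ((x.convergent l : ℚ) : ℂ) (e i k)) ξ ℚ (algebraMap ℚ ℂ) d A B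
          (x.convergent l).den := by
  choose e he han hL using fun i => Pool.Agent.J6H45.RT.modular_loc (hU i)
  obtain ⟨E, hE, h⟩ := Pool.Agent.J6H45.RT.near_countable ξ (fun i => Fin (3 * p i + s i)) U (fun i => (hU i).isOpen)
    (fun i k z => value (τ i) (w i) z (e i k)) (fun i k t ht => han i k t ht) (fun i t ht => hL i t ht)
  exact ⟨e, E, he, hE, h⟩

end Pool.Agent.Results.MP_5e64e7_nt.ApproximationsOfAllNumbers
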