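import Pool.Agent.J6H76.MS.AllJ
import Pool.Agent.Y120.J.JDef

/-!
# The modular Schanuel conjecture with derivatives: EVERY tuple of algebraic invariants in a short window and ALL points with
# these invariants, relations of growing degree

Let `j` be the modular invariant. For points `z_1, …, z_k` of the upper half-plane with algebraic `j(z_l)` which are neither
special nor related by `GL_2(ℚ)` the conjecture predicts that the `3 k` numbers `z_l`, `j'(z_l)`, `j''(z_l)` are algebraically
independent.

Let `ξ` be an algebraic number of degree at most `m` and of height at most a power of `|ξ|` (for instance a positive or negative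
integer), let `n_1, …, n_k` be ANY distinct positive integers up to `H`, and `z_1, …, z_k` ANY points of the upper half-plane with
`j(z_l) = ξ + n_l`. We prove: if `|ξ| ≥ (H + 2)^((δ + 2)^C)`, then some `3 k - 1` of the `3 k + 1` numbers `2 π i`, `z_l`, `j'(z_l)`,
`j''(z_l)`, and some `3 k - 2` of the `3 k` numbers `z_l`, `j'(z_l)`, `j''(z_l)`, satisfy no polynomial relation of degree at most
`δ` in each of them over any number field of degree at most `δ`, of any height. No tuples and no points are excluded, and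
`C` depends only on `k`, `m`, `A`: so for `H` fixed and `|ξ| = T` the degrees `δ` of the relations and of the number fields may
grow with `T` like a power of `log T`.

In the starting library the result `AllIntegralTuples` is the case of integral `ξ` and of a fixed degree `δ`; results with
growing degrees are known there for almost all tuples, or outside of a bounded number of exceptional integers in each window.

Proof. The inverse function of `j` near the cusp is `log x` plus a quotient of hypergeometric functions in `x = 1 / j`. The values of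
`F` (`F² = E_6 / E_4`), of `θF` and of the holomorphic part of the logarithmic solution at `1 / (ξ + n_l)` are the values at
`x = 1 / (ξ + H + 1)` of `3 k` algebraically independent G-functions. The products of degree at most `D` of the solutions of the
differential equation span a space `W_D`, and `W_D W_(D') ⊆ W_(D + D')`; so a relation of degree `Δ` can be multiplied by the
elements of `W_D`, and for a suitable `D` (a polynomial in `Δ`) the relations are more than the method of Siegel admits, for
algebraic `ξ`. If every `3 k - 2` of the `3 k` numbers satisfied a relation of degree `δ`, the powers of the space spanned by `1`,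
these numbers, `2 π i` and one logarithm would have dimensions of growth less than `3 k`, with constants which are polynomial
in `δ`.
-/

set_option autoImplicit false

open Module

namespace Pool.Agent.Results.MP_5e64e7_nt.EveryPoint

/-- the normalised Eisenstein series of weight `4` -/
noncomputable def E4 (τ : ℂ) : ℂ :=
  1 + 240 * ∑' m : ℕ, ((ArithmeticFunction.sigma 3 (m + 1) : ℕ) : ℂ) *
    Complex.exp (2 * (Real.pi : ℂ) * Complex.I * ((m : ℂ) + 1) * τ)

/-- the normalised Eisenstein series of weight `6` -/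
noncomputable def E6 (τ : ℂ) : ℂ :=
  1 - 504 * ∑' m : ℕ, ((ArithmeticFunction.sigma 5 (m + 1) : ℕ) : ℂ) *
    Complex.exp (2 * (Real.pi : ℂ) * Complex.I * ((m : ℂ) + 1) * τ)

/-- the modular invariant `j = q⁻¹ + 744 + 196884 q + ⋯` -/
noncomputable def J (τ : ℂ) : ℂ := 1728 * E4 τ ^ 3 / (E4 τ ^ 3 - E6 τ ^ 2)

/-- the numbers `z`, `j'(z)`, `j''(z)` -/
noncomputable def numbers (z : ℂ) : Fin 3 → ℂ := ![z, deriv J z, deriv (deriv J) z]

/-- the number `2 π i` added to the numbers `x_i` -/
noncomputable def withPeriod {ι : Type} (x : ι → ℂ) (o : Option ι) : ℂ := o.elim (2 * (Real.pi : ℂ) * Complex.I) x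

/-- `ξ` is a root of a nonzero integral polynomial of degree at most `m` with coefficients at most `|ξ| ^ A`. -/
def Height (m A : ℕ) (ξ : ℂ) : Prop :=
  ∃ P : Polynomial ℤ, P ≠ 0 ∧ P.natDegree ≤ m ∧ (∀ j, |(P.coeff j : ℝ)| ≤ ‖ξ‖ ^ A) ∧ Polynomial.aeval ξ P = 0

/-- Some `r` of the numbers `x_i` (with different indices, the same for all `K`) satisfy no nonzero polynomial relation of degree at
most `δ` in each unknown with coefficients in any number field `K` of degree at most `δ`. -/
def TrdegGe {ι : Type} (r δ : ℕ) (x : ι → ℂ) : Prop :=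
  ∃ σ : Fin r → ι, Function.Injective σ ∧ ∀ K : IntermediateField ℚ ℂ, FiniteDimensional ℚ K → finrank ℚ K ≤ δ →
    ∀ P : MvPolynomial (Fin r) K, (∀ i, P.degreeOf i ≤ δ) → MvPolynomial.aeval (fun i => x (σ i)) P = 0 → P = 0

/-- **Theorem.** For all `k`, `m`, `A` there is `C` such that for all `δ`, `H`, all complex `ξ` with
`|ξ| ≥ (H + 2)^((δ + 2)^C)` and of height `(m, A)`, all distinct `n_1, …, n_k` in `[1, H]` and all `z_1, …, z_k` in the upper
half-plane with `j(z_l) = ξ + n_l`: some `3 k - 1` of the `3 k + 1` numbers `2 π i`, `z_l`, `j'(z_l)`, `j''(z_l)`, and some `3 k - 2` of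
the `3 k` numbers without `2 π i`, satisfy no relation of degree at most `δ` over number fields of degree at most `δ`. -/
theorem result (k m A : ℕ) : ∃ C : ℕ, ∀ (δ H : ℕ) (ξ : ℂ), ((H : ℝ) + 2) ^ (δ + 2) ^ C ≤ ‖ξ‖ → Height m A ξ →
    ∀ n : Fin k → ℕ, Function.Injective n → (∀ l, 1 ≤ n l ∧ n l ≤ H) →
      ∀ z : Fin k → ℂ, (∀ l, 0 < (z l).im ∧ J (z l) = ξ + n l) →
        TrdegGe (3 * k - 1) δ (withPeriod fun v : Fin k × Fin 3 => numbers (z v.1) v.2) ∧
        TrdegGe (3 * k - 2) δ (fun v : Fin k × Fin 3 => numbers (z v.1) v.2) := by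
  classical
  have h4 : E4 = Pool.Agent.TH21.MS.E4 := funext Pool.Agent.Y120.J.E4_same
  have h6 : E6 = Pool.Agent.TH21.MS.E6 := funext Pool.Agent.Y120.J.E6_same
  have hJ : J = Pool.Agent.TH21.MS.jj := by
    funext τ
    unfold J Pool.Agent.TH21.MS.jj
    rw [h4, h6]
  obtain ⟨E₁, ⟨C₁, hC₁⟩, h1⟩ := Pool.Agent.J6H76.MS.allJ₂ k m A (k * 3 + 1) 1
  obtain ⟨E₂, ⟨C₂, hC₂⟩, h2⟩ := Pool.Agent.J6H76.MS.allJ₂ k m A (k * 3) 2
  refine ⟨C₁ + C₂, fun δ H ξ hξ hHt n hn hnb z hz => ?_⟩
  have hH : (1 : ℝ) ≤ (H : ℝ) + 2 := by linarith [(Nat.cast_nonneg H : (0 : ℝ) ≤ H)]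
  have hb : ∀ {e : ℕ}, e ≤ (δ + 2) ^ (C₁ + C₂) → ((H : ℝ) + 2) ^ e ≤ ‖ξ‖ := fun {e} he =>
    (pow_le_pow_right₀ hH he).trans hξ
  have hb₁ : ((H : ℝ) + 2) ^ E₁ δ ≤ ‖ξ‖ := hb ((hC₁ δ).trans (Nat.pow_le_pow_right (by omega) (by omega)))
  have hb₂ : ((H : ℝ) + 2) ^ E₂ δ ≤ ‖ξ‖ := hb ((hC₂ δ).trans (Nat.pow_le_pow_right (by omega) (by omega)))
  have hzz : ∀ l, Pool.Agent.TH21.MS.jj ((⟨z l, (hz l).1⟩ : UpperHalfPlane) : ℂ) = ξ + n l := by
    intro l
    have h5 := (hz l).2
    rw [hJ] at h5
    exact h5
  have hjt : ∀ l j, Pool.Agent.Y120.J.jt (z l) j = numbers (z l) j := by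
    intro l j
    unfold numbers Pool.Agent.Y120.J.jt
    rw [hJ]
  have hcard : Fintype.card (Fin k × Fin 3) = k * 3 := by
    rw [Fintype.card_prod, Fintype.card_fin, Fintype.card_fin]
  constructor
  · have hmain := h1 δ H ξ hb₁ hHt n hn hnb (fun l => ⟨z l, (hz l).1⟩) hzz (Option (Fin k × Fin 3))
      (by rw [Fintype.card_option, hcard]) (withPeriod fun v : Fin k × Fin 3 => numbers (z v.1) v.2)
      ![Complex.log (1 / (ξ + (H + 1 : ℕ)))] (fun K V hV hθ => by
        refine ⟨hV none, hθ 0, fun l i => ?_⟩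
        have h7 := hV (some (l, i))
        have h8 : withPeriod (fun v : Fin k × Fin 3 => numbers (z v.1) v.2) (some (l, i)) =
            Pool.Agent.Y120.J.jt (z l) i := (hjt l i).symm
        rw [h8] at h7
        exact h7)
    rw [mul_comm k 3] at hmain
    obtain ⟨σ, hσ, h⟩ := hmain
    exact ⟨σ, hσ, fun K hK hKd P hP h0 => (h K hK hKd).mv P hP h0⟩
  · have hmain := h2 δ H ξ hb₂ hHt n hn hnb (fun l => ⟨z l, (hz l).1⟩) hzz (Fin k × Fin 3) hcard
      (fun v : Fin k × Fin 3 => numbers (z v.1) v.2)
      ![Pool.Agent.Y120.J.tpi, Complex.log (1 / (ξ + (H + 1 : ℕ)))] (fun K V hV hθ => by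
        refine ⟨hθ 0, hθ 1, fun l i => ?_⟩
        have h7 := hV (l, i)
        rw [← hjt l i] at h7
        exact h7)
    rw [mul_comm k 3] at hmain
    obtain ⟨σ, hσ, h⟩ := hmain
    exact ⟨σ, hσ, fun K hK hKd P hP h0 => (h K hK hKd).mv P hP h0⟩

end Pool.Agent.Results.MP_5e64e7_nt.EveryPoint
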